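import Pool.Agent.Helper76.MH.Energy

/-!
# Karatsuba's bilinear estimate for short Kloosterman-type sums
-/

open Finset

namespace Pool.Agent.Helper76.MH

/-- the standard character modulo `n` -/
noncomputable def ps (n : ℕ) [NeZero n] : AddChar (ZMod n) ℂ := ZMod.stdAddChar

lemma norm_ps {n : ℕ} [NeZero n] (x : ZMod n) : ‖ps n x‖ = 1 := by
  unfold ps
  rw [ZMod.stdAddChar_apply]
  exact Circle.norm_coe _

lemma ps_sub {n : ℕ} [NeZero n] (x y : ZMod n) : ps n (x - y) = ps n x * (starRingEnd ℂ) (ps n y) := by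
  have h1 : ps n (x - y) * ps n y = ps n x := by
    rw [← AddChar.map_add_eq_mul]
    congr 1
    ring
  have h2 : ps n y * (starRingEnd ℂ) (ps n y) = 1 := by
    rw [Complex.mul_conj, Complex.normSq_eq_norm_sq, norm_ps]
    simp
  calc ps n (x - y) = ps n (x - y) * (ps n y * (starRingEnd ℂ) (ps n y)) := by rw [h2, mul_one]
    _ = (ps n (x - y) * ps n y) * (starRingEnd ℂ) (ps n y) := by ring
    _ = _ := by rw [h1]

lemma ps_sum {n : ℕ} [NeZero n] {ι : Type*} (s : Finset ι) (f : ι → ZMod n) :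
    ps n (∑ i ∈ s, f i) = ∏ i ∈ s, ps n (f i) := by
  classical
  induction s using Finset.induction_on with
  | empty => simp
  | insert a s ha ih => rw [Finset.sum_insert ha, Finset.prod_insert ha, AddChar.map_add_eq_mul, ih]

lemma ps_orth {n : ℕ} [NeZero n] (b : ZMod n) :
    ∑ x : ZMod n, ps n (x * b) = if b = 0 then (n : ℂ) else 0 := by
  have h := AddChar.sum_mulShift (R := ZMod n) (R' := ℂ) (ψ := ps n) b (ZMod.isPrimitive_stdAddChar n)
  rw [h]
  split_ifs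
  · rw [ZMod.card]
  · simp

/-- Parseval -/
lemma pars {n : ℕ} [NeZero n] {ι : Type*} (T : Finset ι) (Θ : ι → ℂ) (c : ι → ZMod n)
    (hΘ : ∀ v ∈ T, ‖Θ v‖ ≤ 1) :
    ∑ x : ZMod n, ‖∑ v ∈ T, Θ v * ps n (x * c v)‖ ^ 2 ≤
      n * (((T ×ˢ T).filter fun p => c p.1 = c p.2).card : ℝ) := by
  classical
  have h1 : ((∑ x : ZMod n, ‖∑ v ∈ T, Θ v * ps n (x * c v)‖ ^ 2 : ℝ) : ℂ) =
      ∑ v ∈ T, ∑ w ∈ T, (Θ v * (starRingEnd ℂ) (Θ w)) * (if c v = c w then (n : ℂ) else 0) := by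
    push_cast
    have h2 : ∀ x : ZMod n, ((‖∑ v ∈ T, Θ v * ps n (x * c v)‖ : ℂ)) ^ 2 =
        ∑ v ∈ T, ∑ w ∈ T, (Θ v * (starRingEnd ℂ) (Θ w)) * ps n (x * (c v - c w)) := by
      intro x
      have h3 : ((‖∑ v ∈ T, Θ v * ps n (x * c v)‖ : ℂ)) ^ 2 =
          (∑ v ∈ T, Θ v * ps n (x * c v)) * (starRingEnd ℂ) (∑ v ∈ T, Θ v * ps n (x * c v)) := by
        rw [Complex.mul_conj, Complex.normSq_eq_norm_sq]
        push_cast
        rfl
      rw [h3, map_sum, Finset.sum_mul_sum]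
      refine Finset.sum_congr rfl fun v _ => Finset.sum_congr rfl fun w _ => ?_
      rw [mul_sub, ps_sub, (starRingEnd ℂ).map_mul]
      ring
    simp_rw [h2]
    rw [Finset.sum_comm]
    refine Finset.sum_congr rfl fun v _ => ?_
    rw [Finset.sum_comm]
    refine Finset.sum_congr rfl fun w _ => ?_
    rw [← Finset.mul_sum, ps_orth]
    simp only [sub_eq_zero]
  have h0 : 0 ≤ ∑ x : ZMod n, ‖∑ v ∈ T, Θ v * ps n (x * c v)‖ ^ 2 := by positivity
  have h2 : ∑ x : ZMod n, ‖∑ v ∈ T, Θ v * ps n (x * c v)‖ ^ 2 =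
      ‖((∑ x : ZMod n, ‖∑ v ∈ T, Θ v * ps n (x * c v)‖ ^ 2 : ℝ) : ℂ)‖ := by
    rw [Complex.norm_real, Real.norm_eq_abs, abs_of_nonneg h0]
  rw [h2, h1]
  calc ‖∑ v ∈ T, ∑ w ∈ T, (Θ v * (starRingEnd ℂ) (Θ w)) * (if c v = c w then (n : ℂ) else 0)‖
      ≤ ∑ v ∈ T, ∑ w ∈ T, (if c v = c w then (n : ℝ) else 0) := by
        refine (norm_sum_le _ _).trans (Finset.sum_le_sum fun v hv => ?_)
        refine (norm_sum_le _ _).trans (Finset.sum_le_sum fun w hw => ?_)
        rw [norm_mul, norm_mul, RCLike.norm_conj]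
        have h3 := hΘ v hv
        have h4 := hΘ w hw
        split_ifs
        · rw [Complex.norm_natCast]
          have h5 : ‖Θ v‖ * ‖Θ w‖ ≤ 1 := by
            calc ‖Θ v‖ * ‖Θ w‖ ≤ 1 * 1 := by gcongr
              _ = 1 := one_mul 1
          calc ‖Θ v‖ * ‖Θ w‖ * (n : ℝ) ≤ 1 * n := by gcongr
            _ = n := one_mul _
        · simp
    _ = n * (((T ×ˢ T).filter fun p => c p.1 = c p.2).card : ℝ) := by
        rw [Finset.card_filter, Finset.sum_product]
        push_cast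
        rw [Finset.mul_sum]
        refine Finset.sum_congr rfl fun v _ => ?_
        rw [Finset.mul_sum]
        refine Finset.sum_congr rfl fun w _ => ?_
        split_ifs <;> simp

/-- **Karatsuba's bilinear estimate** -/
theorem bilinear {n r : ℕ} [NeZero n] (hr : 1 ≤ r) (S : Finset ℕ) (h : ℤ) :
    ‖∑ p ∈ S, ∑ q ∈ S, ps n ((h : ZMod n) * iv n p * iv n q)‖ ^ (r * (2 * r)) ≤
      (S.card : ℝ) ^ (4 * r * (r - 1)) * (n * (J n r S h : ℝ) ^ 2) := by
  classical
  obtain ⟨k, rfl⟩ : ∃ k, r = k + 1 := ⟨r - 1, by omega⟩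
  set r := k + 1 with hrk
  set R : ℝ := (S.card : ℝ) with hR
  have hR0 : 0 ≤ R := Nat.cast_nonneg _
  set E : ℕ → ℂ := fun q => ∑ p ∈ S, ps n ((h : ZMod n) * iv n p * iv n q) with hE
  have hS : ∑ p ∈ S, ∑ q ∈ S, ps n ((h : ZMod n) * iv n p * iv n q) = ∑ q ∈ S, E q := by
    rw [Finset.sum_comm]
  rw [hS]
  -- phases
  have hph : ∀ q : ℕ, ∃ θ : ℂ, ‖θ‖ = 1 ∧ ((‖E q‖ ^ r : ℝ) : ℂ) = θ * E q ^ r := by
    intro q
    by_cases h0 : E q = 0
    · refine ⟨1, by simp, ?_⟩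
      rw [h0]
      simp [hrk]
    · refine ⟨((starRingEnd ℂ) (E q) / ‖E q‖) ^ r, ?_, ?_⟩
      · rw [norm_pow, norm_div, RCLike.norm_conj, Complex.norm_real, norm_norm,
          div_self (norm_ne_zero_iff.2 h0), one_pow]
      · rw [← mul_pow]
        have h1 : (starRingEnd ℂ) (E q) / ‖E q‖ * E q = ‖E q‖ := by
          have h2 : E q * (starRingEnd ℂ) (E q) = (‖E q‖ : ℂ) ^ 2 := by
            rw [Complex.mul_conj, Complex.normSq_eq_norm_sq]
            push_cast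
            rfl
          have h3 : (‖E q‖ : ℂ) ≠ 0 := by exact_mod_cast norm_ne_zero_iff.2 h0
          rw [div_mul_eq_mul_div, mul_comm, h2, pow_two, mul_div_assoc, div_self h3, mul_one]
        rw [h1]
        push_cast
        rfl
  choose θ hθ1 hθ2 using hph
  set B : ZMod n → ℂ := fun x => ∑ q ∈ S, θ q * ps n (x * ((h : ZMod n) * iv n q)) with hB
  have hEpow : ∀ q : ℕ, E q ^ r = ∑ v ∈ tup r S, ps n (sg n v * ((h : ZMod n) * iv n q)) := by
    intro q
    rw [hE]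
    simp only
    rw [Finset.sum_pow']
    unfold tup
    refine Finset.sum_congr rfl fun v _ => ?_
    rw [← ps_sum]
    congr 1
    unfold sg
    rw [Finset.sum_mul]
    refine Finset.sum_congr rfl fun i _ => ?_
    ring
  -- step 1
  have step1 : ‖∑ q ∈ S, E q‖ ^ r ≤ R ^ k * ∑ v ∈ tup r S, ‖B (sg n v)‖ := by
    calc ‖∑ q ∈ S, E q‖ ^ r ≤ (∑ q ∈ S, ‖E q‖) ^ r := by
          gcongr
          exact norm_sum_le _ _
      _ ≤ R ^ k * ∑ q ∈ S, ‖E q‖ ^ r := by
          exact pow_sum_le_card_mul_sum_pow (fun q _ => norm_nonneg _) k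
      _ ≤ R ^ k * ∑ v ∈ tup r S, ‖B (sg n v)‖ := by
          gcongr
          have h1 : ((∑ q ∈ S, ‖E q‖ ^ r : ℝ) : ℂ) = ∑ v ∈ tup r S, B (sg n v) := by
            rw [Complex.ofReal_sum, hB]
            simp only
            rw [Finset.sum_comm]
            refine Finset.sum_congr rfl fun q _ => ?_
            rw [hθ2, hEpow, Finset.mul_sum]
          have h2 : 0 ≤ ∑ q ∈ S, ‖E q‖ ^ r := by positivity
          calc ∑ q ∈ S, ‖E q‖ ^ r = ‖((∑ q ∈ S, ‖E q‖ ^ r : ℝ) : ℂ)‖ := by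
                rw [Complex.norm_real, Real.norm_eq_abs, abs_of_nonneg h2]
            _ = ‖∑ v ∈ tup r S, B (sg n v)‖ := by rw [h1]
            _ ≤ ∑ v ∈ tup r S, ‖B (sg n v)‖ := norm_sum_le _ _
  -- step 2
  have step2 : (∑ v ∈ tup r S, ‖B (sg n v)‖) ^ r ≤ (R ^ r) ^ k * ∑ v ∈ tup r S, ‖B (sg n v)‖ ^ r := by
    have h1 := pow_sum_le_card_mul_sum_pow (s := tup r S) (f := fun v => ‖B (sg n v)‖)
      (fun v _ => norm_nonneg _) k
    rw [card_tup] at h1
    push_cast at h1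
    exact h1
  -- step 3
  set rep : ZMod n → ℝ := fun x => (((tup r S).filter fun v => sg n v = x).card : ℝ) with hrep
  have hfib : ∑ v ∈ tup r S, ‖B (sg n v)‖ ^ r = ∑ x : ZMod n, rep x * ‖B x‖ ^ r := by
    rw [← Finset.sum_fiberwise (tup r S) (fun v => sg n v) (fun v => ‖B (sg n v)‖ ^ r)]
    refine Finset.sum_congr rfl fun x _ => ?_
    rw [Finset.sum_congr rfl (g := fun _ => ‖B x‖ ^ r)]
    · rw [Finset.sum_const, nsmul_eq_mul]
    · intro v hv
      rw [(Finset.mem_filter.1 hv).2]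
  have hrep2 : ∑ x : ZMod n, rep x ^ 2 ≤ (J n r S h : ℝ) := by
    have h1 : ∑ x : ZMod n, ((tup r S).filter fun v => sg n v = x).card ^ 2 =
        ((tup r S ×ˢ tup r S).filter fun p => sg n p.1 = sg n p.2).card := by
      rw [Finset.card_filter, Finset.sum_product]
      have h2 : ∀ v ∈ tup r S, (∑ w ∈ tup r S, if sg n v = sg n w then 1 else 0) =
          ((tup r S).filter fun w => sg n w = sg n v).card := by
        intro v _
        rw [Finset.card_filter]
        refine Finset.sum_congr rfl fun w _ => ?_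
        simp only [eq_comm]
      simp only
      rw [Finset.sum_congr rfl h2,
        ← Finset.sum_fiberwise (tup r S) (fun v => sg n v)]
      refine Finset.sum_congr rfl fun x _ => ?_
      rw [Finset.sum_congr rfl (g := fun _ => ((tup r S).filter fun w => sg n w = x).card)]
      · rw [Finset.sum_const, smul_eq_mul, pow_two]
      · intro v hv
        rw [(Finset.mem_filter.1 hv).2]
    have h2 : ((tup r S ×ˢ tup r S).filter fun p => sg n p.1 = sg n p.2).card ≤ J n r S h := by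
      unfold J
      refine Finset.card_le_card ?_
      intro p hp
      rw [Finset.mem_filter] at hp ⊢
      refine ⟨hp.1, ?_⟩
      rw [hp.2, sub_self, mul_zero]
    have h3 : ∑ x : ZMod n, rep x ^ 2 = ((∑ x : ZMod n, ((tup r S).filter fun v => sg n v = x).card ^ 2 : ℕ) : ℝ) := by
      push_cast
      rfl
    rw [h3, h1]
    exact_mod_cast h2
  have hBpow : ∑ x : ZMod n, (‖B x‖ ^ r) ^ 2 ≤ n * (J n r S h : ℝ) := by
    have h1 : ∀ x : ZMod n, (‖B x‖ ^ r) ^ 2 =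
        ‖∑ v ∈ tup r S, (∏ i, θ (v i)) * ps n (x * ((h : ZMod n) * sg n v))‖ ^ 2 := by
      intro x
      rw [← norm_pow]
      congr 2
      rw [hB]
      simp only
      rw [Finset.sum_pow']
      unfold tup
      refine Finset.sum_congr rfl fun v _ => ?_
      rw [Finset.prod_mul_distrib, ← ps_sum]
      congr 2
      unfold sg
      rw [Finset.mul_sum, Finset.mul_sum]
    simp_rw [h1]
    refine (pars (tup r S) (fun v => ∏ i, θ (v i)) (fun v => (h : ZMod n) * sg n v) ?_).trans ?_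
    · intro v _
      rw [norm_prod]
      simp [hθ1]
    · gcongr
      unfold J
      refine Finset.card_le_card ?_
      intro p hp
      rw [Finset.mem_filter] at hp ⊢
      refine ⟨hp.1, ?_⟩
      rw [mul_sub, hp.2, sub_self]
  have step3 : (∑ v ∈ tup r S, ‖B (sg n v)‖ ^ r) ^ 2 ≤ n * (J n r S h : ℝ) ^ 2 := by
    rw [hfib]
    calc (∑ x : ZMod n, rep x * ‖B x‖ ^ r) ^ 2 ≤
          (∑ x : ZMod n, rep x ^ 2) * ∑ x : ZMod n, (‖B x‖ ^ r) ^ 2 :=
          Finset.sum_mul_sq_le_sq_mul_sq _ _ _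
      _ ≤ (J n r S h : ℝ) * (n * (J n r S h : ℝ)) := by
          gcongr
      _ = n * (J n r S h : ℝ) ^ 2 := by ring
  -- conclusion
  set X := ∑ v ∈ tup r S, ‖B (sg n v)‖ with hX
  set Y := ∑ v ∈ tup r S, ‖B (sg n v)‖ ^ r with hY
  have hX0 : 0 ≤ X := by positivity
  have hY0 : 0 ≤ Y := by positivity
  calc ‖∑ q ∈ S, E q‖ ^ (r * (2 * r)) = (‖∑ q ∈ S, E q‖ ^ r) ^ (2 * r) := by rw [pow_mul]
    _ ≤ (R ^ k * X) ^ (2 * r) := by gcongr
    _ = R ^ (k * (2 * r)) * (X ^ r) ^ 2 := by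
        rw [mul_pow, ← pow_mul, ← pow_mul]
        congr 2
        ring
    _ ≤ R ^ (k * (2 * r)) * ((R ^ r) ^ k * Y) ^ 2 := by gcongr
    _ = R ^ (4 * r * k) * Y ^ 2 := by
        rw [mul_pow, ← pow_mul, ← pow_mul, ← mul_assoc, ← pow_add]
        congr 2
        ring
    _ ≤ R ^ (4 * r * k) * (n * (J n r S h : ℝ) ^ 2) := by gcongr
    _ = R ^ (4 * r * (r - 1)) * (n * (J n r S h : ℝ) ^ 2) := by
        congr 2

end Pool.Agent.Helper76.MH
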