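import Mathlib

/-!
# Karatsuba's lemma: the additive energy of the reciprocals of small primes modulo `n`
-/

open Finset

namespace Pool.Agent.Helper76.MH

/-- clearing denominators -/
lemma clear_denom {A ι : Type*} [CommRing A] [DecidableEq ι] (s : Finset ι) (u w : ι → A)
    (h : ∀ i ∈ s, u i * w i = 1) :
    (∏ i ∈ s, u i) * ∑ i ∈ s, w i = ∑ i ∈ s, ∏ j ∈ s.erase i, u j := by
  rw [Finset.mul_sum]
  refine Finset.sum_congr rfl fun i hi => ?_
  rw [← Finset.mul_prod_erase s u hi]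
  calc u i * (∏ j ∈ s.erase i, u j) * w i = (u i * w i) * ∏ j ∈ s.erase i, u j := by ring
    _ = ∏ j ∈ s.erase i, u j := by rw [h i hi, one_mul]

/-- equality of two sums of `r` reciprocals of primes larger than `r` -/
lemma recip_unique {r : ℕ} {v v' : Fin r → ℕ} (hv : ∀ i, (v i).Prime) (hv' : ∀ i, (v' i).Prime)
    (hr : ∀ i, r < v' i) (h : ∑ i, ((v i : ℚ))⁻¹ = ∑ i, ((v' i : ℚ))⁻¹) (j : Fin r) :
    ∃ i, v i = v' j := by
  classical
  by_contra hne
  push Not at hne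
  set p := v' j with hp
  have hpp : p.Prime := hv' j
  set s := (Finset.univ : Finset (Fin r)).filter (fun i => v' i ≠ p) with hs
  set c := ((Finset.univ : Finset (Fin r)).filter (fun i => v' i = p)).card with hc
  have hc0 : 0 < c := Finset.card_pos.2 ⟨j, by simp [hp]⟩
  have hcr : c ≤ r := by
    have := Finset.card_filter_le (Finset.univ : Finset (Fin r)) (fun i => v' i = p)
    simpa using this
  have hsplit : ∑ i, ((v' i : ℚ))⁻¹ = (c : ℚ) * (p : ℚ)⁻¹ + ∑ i ∈ s, ((v' i : ℚ))⁻¹ := by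
    rw [← Finset.sum_filter_add_sum_filter_not Finset.univ (fun i => v' i = p)]
    congr 1
    rw [Finset.sum_congr rfl (g := fun _ => (p : ℚ)⁻¹)]
    · rw [Finset.sum_const, nsmul_eq_mul]
    · intro i hi
      rw [(Finset.mem_filter.1 hi).2]
  set D : ℕ := ∏ i, v i with hD
  set E : ℕ := ∏ i ∈ s, v' i with hE
  have h1 : (D : ℚ) * ∑ i, ((v i : ℚ))⁻¹ = ((∑ i, ∏ k ∈ Finset.univ.erase i, v k : ℕ) : ℚ) := by
    rw [hD]
    push_cast
    exact clear_denom Finset.univ (fun i => (v i : ℚ)) (fun i => ((v i : ℚ))⁻¹)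
      (fun i _ => mul_inv_cancel₀ (by exact_mod_cast (hv i).ne_zero))
  have h2 : (E : ℚ) * ∑ i ∈ s, ((v' i : ℚ))⁻¹ = ((∑ i ∈ s, ∏ k ∈ s.erase i, v' k : ℕ) : ℚ) := by
    rw [hE]
    push_cast
    exact clear_denom s (fun i => (v' i : ℚ)) (fun i => ((v' i : ℚ))⁻¹)
      (fun i _ => mul_inv_cancel₀ (by exact_mod_cast (hv' i).ne_zero))
  set M := ∑ i, ∏ k ∈ Finset.univ.erase i, v k with hM
  set M' := ∑ i ∈ s, ∏ k ∈ s.erase i, v' k with hM'
  have hp0 : (p : ℚ) ≠ 0 := by exact_mod_cast hpp.ne_zero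
  have h3 : (D : ℚ) * E * c = p * ((E : ℚ) * M - (D : ℚ) * M') := by
    have h4 : (D : ℚ) * E * (c * (p : ℚ)⁻¹) = (E : ℚ) * M - (D : ℚ) * M' := by
      rw [← h1, ← h2, h, hsplit]
      ring
    rw [← h4]
    field_simp
  have h4 : (D : ℤ) * E * c = p * ((E : ℤ) * M - (D : ℤ) * M') := by exact_mod_cast h3
  have h5 : (p : ℤ) ∣ (D : ℤ) * E * c := ⟨_, h4⟩
  have h6 : p ∣ D * E * c := by exact_mod_cast h5
  rcases (Nat.Prime.dvd_mul hpp).1 h6 with h7 | h7
  · rcases (Nat.Prime.dvd_mul hpp).1 h7 with h8 | h8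
    · obtain ⟨i, _, hi⟩ := (Prime.dvd_finsetProd_iff hpp.prime _).1 h8
      exact hne i ((Nat.prime_dvd_prime_iff_eq hpp (hv i)).1 hi).symm
    · obtain ⟨i, hi1, hi⟩ := (Prime.dvd_finsetProd_iff hpp.prime _).1 h8
      exact (Finset.mem_filter.1 hi1).2 ((Nat.prime_dvd_prime_iff_eq hpp (hv' i)).1 hi).symm
  · have := Nat.le_of_dvd hc0 h7
    have := hr j
    omega

/-- the setting: a set of primes in `(r, P]`, prime to `n` -/
structure PrimeSet (n r P : ℕ) (S : Finset ℕ) : Prop where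
  prime : ∀ p ∈ S, p.Prime
  gt : ∀ p ∈ S, r < p
  le : ∀ p ∈ S, p ≤ P
  cop : ∀ p ∈ S, Nat.Coprime p n

/-- the inverse of `p` modulo `n` -/
noncomputable def iv (n : ℕ) (p : ℕ) : ZMod n := ((p : ZMod n))⁻¹

lemma iv_mul {n p : ℕ} (h : Nat.Coprime p n) : (p : ZMod n) * iv n p = 1 :=
  ZMod.coe_mul_inv_eq_one p h

/-- the sum of the inverses of a tuple -/
noncomputable def sg (n : ℕ) {r : ℕ} (v : Fin r → ℕ) : ZMod n := ∑ i, iv n (v i)

lemma numer_le {r P : ℕ} {v : Fin r → ℕ} (hv : ∀ i, v i ≤ P) :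
    ∑ i : Fin r, ∏ k ∈ Finset.univ.erase i, v k ≤ r * P ^ (r - 1) := by
  calc ∑ i : Fin r, ∏ k ∈ Finset.univ.erase i, v k ≤ ∑ i : Fin r, P ^ (r - 1) := by
        refine Finset.sum_le_sum fun i _ => ?_
        calc ∏ k ∈ Finset.univ.erase i, v k ≤ ∏ k ∈ (Finset.univ : Finset (Fin r)).erase i, P :=
              Finset.prod_le_prod' fun k _ => hv k
          _ = P ^ (r - 1) := by
              rw [Finset.prod_const, Finset.card_erase_of_mem (Finset.mem_univ i), Finset.card_univ,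
                Fintype.card_fin]
    _ = r * P ^ (r - 1) := by
        rw [Finset.sum_const, Finset.card_univ, Fintype.card_fin, smul_eq_mul]

lemma prod_le {r P : ℕ} {v : Fin r → ℕ} (hv : ∀ i, v i ≤ P) : ∏ i, v i ≤ P ^ r := by
  calc ∏ i, v i ≤ ∏ _i : Fin r, P := Finset.prod_le_prod' fun k _ => hv k
    _ = P ^ r := by rw [Finset.prod_const, Finset.card_univ, Fintype.card_fin]

/-- if the two sums agree modulo `n` up to a small factor `h`, the entries agree as sets -/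
lemma entries {n r P L : ℕ} {S : Finset ℕ} (hS : PrimeSet n r P S) (hr : 1 ≤ r)
    (hL : L * r * P ^ (2 * r - 1) < n) {h : ℤ} (h0 : h ≠ 0) (hhL : |h| ≤ L)
    {v v' : Fin r → ℕ} (hv : ∀ i, v i ∈ S) (hv' : ∀ i, v' i ∈ S)
    (heq : (h : ZMod n) * (sg n v - sg n v') = 0) (j : Fin r) : ∃ i, v i = v' j := by
  classical
  apply recip_unique (fun i => hS.prime _ (hv i)) (fun i => hS.prime _ (hv' i))
    (fun i => hS.gt _ (hv' i)) _ j
  set A : ℕ := ∑ i : Fin r, ∏ k ∈ Finset.univ.erase i, v k with hA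
  set A' : ℕ := ∑ i : Fin r, ∏ k ∈ Finset.univ.erase i, v' k with hA'
  set D : ℕ := ∏ i, v i with hD
  set D' : ℕ := ∏ i, v' i with hD'
  have h1 : (D : ZMod n) * sg n v = A := by
    rw [hD, hA]
    push_cast
    exact clear_denom Finset.univ (fun i => (v i : ZMod n)) (fun i => iv n (v i))
      (fun i _ => iv_mul (hS.cop _ (hv i)))
  have h2 : (D' : ZMod n) * sg n v' = A' := by
    rw [hD', hA']
    push_cast
    exact clear_denom Finset.univ (fun i => (v' i : ZMod n)) (fun i => iv n (v' i))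
      (fun i _ => iv_mul (hS.cop _ (hv' i)))
  have h3 : ((h * ((A : ℤ) * D' - A' * D) : ℤ) : ZMod n) = 0 := by
    push_cast
    rw [← h1, ← h2]
    calc (h : ZMod n) * ((D : ZMod n) * sg n v * D' - (D' : ZMod n) * sg n v' * D)
        = (D : ZMod n) * D' * ((h : ZMod n) * (sg n v - sg n v')) := by ring
      _ = 0 := by rw [heq, mul_zero]
  have h4 : (n : ℤ) ∣ h * ((A : ℤ) * D' - A' * D) := (ZMod.intCast_zmod_eq_zero_iff_dvd _ _).1 h3
  have hle : ∀ i, v i ≤ P := fun i => hS.le _ (hv i)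
  have hle' : ∀ i, v' i ≤ P := fun i => hS.le _ (hv' i)
  have hpow : P ^ (r - 1) * P ^ r = P ^ (2 * r - 1) := by
    rw [← pow_add]
    congr 1
    omega
  have h5 : A * D' ≤ r * P ^ (2 * r - 1) := by
    calc A * D' ≤ (r * P ^ (r - 1)) * P ^ r := Nat.mul_le_mul (numer_le hle) (prod_le hle')
      _ = r * P ^ (2 * r - 1) := by rw [mul_assoc, hpow]
  have h6 : A' * D ≤ r * P ^ (2 * r - 1) := by
    calc A' * D ≤ (r * P ^ (r - 1)) * P ^ r := Nat.mul_le_mul (numer_le hle') (prod_le hle)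
      _ = r * P ^ (2 * r - 1) := by rw [mul_assoc, hpow]
  have h7 : |(A : ℤ) * D' - A' * D| ≤ (r * P ^ (2 * r - 1) : ℕ) := by
    have h5' : (A : ℤ) * D' ≤ (r * P ^ (2 * r - 1) : ℕ) := by exact_mod_cast h5
    have h6' : (A' : ℤ) * D ≤ (r * P ^ (2 * r - 1) : ℕ) := by exact_mod_cast h6
    have h8 : (0 : ℤ) ≤ (A : ℤ) * D' := by positivity
    have h9 : (0 : ℤ) ≤ (A' : ℤ) * D := by positivity
    rw [abs_le]
    constructor <;> linarith
  have h8 : |h * ((A : ℤ) * D' - A' * D)| < n := by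
    rw [abs_mul]
    calc |h| * |(A : ℤ) * D' - A' * D| ≤ (L : ℤ) * (r * P ^ (2 * r - 1) : ℕ) := by
          gcongr
      _ = ((L * r * P ^ (2 * r - 1) : ℕ) : ℤ) := by push_cast; ring
      _ < n := by exact_mod_cast hL
  have h9 : h * ((A : ℤ) * D' - A' * D) = 0 := Int.eq_zero_of_abs_lt_dvd h4 h8
  have h10 : (A : ℤ) * D' = A' * D := by
    rcases mul_eq_zero.1 h9 with h | h
    · exact absurd h h0
    · linarith
  have hD0 : (D : ℚ) ≠ 0 := by
    have : D ≠ 0 := Finset.prod_ne_zero_iff.2 fun i _ => (hS.prime _ (hv i)).ne_zero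
    exact_mod_cast this
  have hD0' : (D' : ℚ) ≠ 0 := by
    have : D' ≠ 0 := Finset.prod_ne_zero_iff.2 fun i _ => (hS.prime _ (hv' i)).ne_zero
    exact_mod_cast this
  have q1 : (D : ℚ) * ∑ i, ((v i : ℚ))⁻¹ = A := by
    rw [hD, hA]
    push_cast
    exact clear_denom Finset.univ (fun i => (v i : ℚ)) (fun i => ((v i : ℚ))⁻¹)
      (fun i _ => mul_inv_cancel₀ (by exact_mod_cast (hS.prime _ (hv i)).ne_zero))
  have q2 : (D' : ℚ) * ∑ i, ((v' i : ℚ))⁻¹ = A' := by
    rw [hD', hA']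
    push_cast
    exact clear_denom Finset.univ (fun i => (v' i : ℚ)) (fun i => ((v' i : ℚ))⁻¹)
      (fun i _ => mul_inv_cancel₀ (by exact_mod_cast (hS.prime _ (hv' i)).ne_zero))
  have q3 : (A : ℚ) * D' = A' * D := by exact_mod_cast h10
  have q4 : (D : ℚ) * D' * ∑ i, ((v i : ℚ))⁻¹ = (D : ℚ) * D' * ∑ i, ((v' i : ℚ))⁻¹ := by
    calc (D : ℚ) * D' * ∑ i, ((v i : ℚ))⁻¹ = ((D : ℚ) * ∑ i, ((v i : ℚ))⁻¹) * D' := by ring
      _ = A' * D := by rw [q1, q3]
      _ = (D : ℚ) * D' * ∑ i, ((v' i : ℚ))⁻¹ := by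
          rw [← q2]
          ring
  exact mul_left_cancel₀ (mul_ne_zero hD0 hD0') q4

/-- tuples of elements of `S` -/
def tup (r : ℕ) (S : Finset ℕ) : Finset (Fin r → ℕ) := Fintype.piFinset fun _ => S

lemma mem_tup {r : ℕ} {S : Finset ℕ} {v : Fin r → ℕ} : v ∈ tup r S ↔ ∀ i, v i ∈ S :=
  Fintype.mem_piFinset

lemma card_tup (r : ℕ) (S : Finset ℕ) : (tup r S).card = S.card ^ r := by
  unfold tup
  rw [Fintype.card_piFinset, Finset.prod_const, Finset.card_univ, Fintype.card_fin]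

open Classical in
/-- the energy -/
noncomputable def J (n r : ℕ) (S : Finset ℕ) (h : ℤ) : ℕ :=
  ((tup r S ×ˢ tup r S).filter fun p => (h : ZMod n) * (sg n p.1 - sg n p.2) = 0).card

theorem J_le {n r P L : ℕ} {S : Finset ℕ} (hS : PrimeSet n r P S) (hr : 1 ≤ r)
    (hL : L * r * P ^ (2 * r - 1) < n) {h : ℤ} (h0 : h ≠ 0) (hhL : |h| ≤ L) :
    J n r S h ≤ r ^ r * S.card ^ r := by
  classical
  unfold J
  have h1 : ((tup r S ×ˢ tup r S).filter fun p => (h : ZMod n) * (sg n p.1 - sg n p.2) = 0) ⊆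
      (tup r S).biUnion fun v => ({v} : Finset (Fin r → ℕ)) ×ˢ
        (Fintype.piFinset fun _ : Fin r => (Finset.univ : Finset (Fin r)).image v) := by
    rintro ⟨v, v'⟩ hp
    rw [Finset.mem_filter, Finset.mem_product] at hp
    obtain ⟨⟨hv, hv'⟩, heq⟩ := hp
    rw [Finset.mem_biUnion]
    refine ⟨v, hv, ?_⟩
    rw [Finset.mem_product, Finset.mem_singleton, Fintype.mem_piFinset]
    refine ⟨rfl, fun j => ?_⟩
    obtain ⟨i, hi⟩ := entries hS hr hL h0 hhL (mem_tup.1 hv) (mem_tup.1 hv') heq j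
    exact Finset.mem_image.2 ⟨i, Finset.mem_univ _, hi⟩
  refine (Finset.card_le_card h1).trans (Finset.card_biUnion_le.trans ?_)
  calc ∑ v ∈ tup r S, (({v} : Finset (Fin r → ℕ)) ×ˢ
        (Fintype.piFinset fun _ : Fin r => (Finset.univ : Finset (Fin r)).image v)).card
      ≤ ∑ v ∈ tup r S, r ^ r := by
        refine Finset.sum_le_sum fun v _ => ?_
        rw [Finset.card_product, Finset.card_singleton, one_mul, Fintype.card_piFinset,
          Finset.prod_const, Finset.card_univ, Fintype.card_fin]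
        apply Nat.pow_le_pow_left
        refine Finset.card_image_le.trans ?_
        rw [Finset.card_univ, Fintype.card_fin]
    _ = r ^ r * S.card ^ r := by
        rw [Finset.sum_const, card_tup, smul_eq_mul, mul_comm]

end Pool.Agent.Helper76.MH
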