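import Pool.Agent.Helper76.MH.Bilinear
import Pool.Agent.Helper76.EM.Fourier

/-!
# A residue in a short interval from small exponential sums
-/

open Finset Pool.Agent.Helper76.EM

namespace Pool.Agent.Helper76.MH

lemma ps_eq_ee {n : ℕ} [NeZero n] (m : ℤ) (z : ZMod n) :
    ps n ((m : ZMod n) * z) = ee (m * ((z.val : ℝ) / n)) := by
  have h1 : (m : ZMod n) * z = ((m * (z.val : ℤ) : ℤ) : ZMod n) := by
    push_cast
    rw [ZMod.natCast_zmod_val]
  unfold ps
  rw [h1, ZMod.stdAddChar_coe]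
  unfold ee
  congr 1
  push_cast
  ring

lemma cos_eq_ee (t : ℝ) : ((Real.cos (2 * Real.pi * t) : ℝ) : ℂ) = (ee t + ee (-t)) / 2 := by
  rw [ee_neg, Complex.add_conj, ee_re]
  push_cast
  ring

/-- the kernel -/
lemma kernel_eq (L : ℕ) (c t : ℝ) :
    ((‖∑ j ∈ range L, ee (j * t)‖ ^ 2 * (Real.cos (2 * Real.pi * t) - c) : ℝ) : ℂ) =
      ∑ j ∈ range L, ∑ k ∈ range L, (ee ((((j:ℤ) - k + 1 : ℤ) : ℝ) * t) / 2 +
        ee ((((j:ℤ) - k - 1 : ℤ) : ℝ) * t) / 2 - c * ee ((((j:ℤ) - k : ℤ) : ℝ) * t)) := by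
  have h1 : ((‖∑ j ∈ range L, ee (j * t)‖ ^ 2 : ℝ) : ℂ) =
      ∑ j ∈ range L, ∑ k ∈ range L, ee ((((j:ℤ) - k : ℤ) : ℝ) * t) := by
    have h2 : ((‖∑ j ∈ range L, ee (j * t)‖ ^ 2 : ℝ) : ℂ) =
        (∑ j ∈ range L, ee (j * t)) * (starRingEnd ℂ) (∑ j ∈ range L, ee (j * t)) := by
      rw [Complex.mul_conj, Complex.normSq_eq_norm_sq]
    rw [h2, map_sum, Finset.sum_mul_sum]
    refine Finset.sum_congr rfl fun j _ => Finset.sum_congr rfl fun k _ => ?_
    rw [← ee_sub]
    congr 1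
    push_cast
    ring
  rw [Complex.ofReal_mul, h1, Complex.ofReal_sub, cos_eq_ee, Finset.sum_mul]
  refine Finset.sum_congr rfl fun j _ => ?_
  rw [Finset.sum_mul]
  refine Finset.sum_congr rfl fun k _ => ?_
  have e1 : ee ((((j:ℤ) - k + 1 : ℤ) : ℝ) * t) = ee ((((j:ℤ) - k : ℤ) : ℝ) * t) * ee t := by
    rw [← ee_add]
    congr 1
    push_cast
    ring
  have e2 : ee ((((j:ℤ) - k - 1 : ℤ) : ℝ) * t) = ee ((((j:ℤ) - k : ℤ) : ℝ) * t) * ee (-t) := by
    rw [← ee_add]
    congr 1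
    push_cast
    ring
  rw [e1, e2]
  ring

lemma count_diag (L : ℕ) (a : ℝ) :
    ∑ j ∈ range L, ∑ k ∈ range L, (if (j:ℤ) - k = 0 then a else 0) = L * a := by
  have h : ∀ j ∈ range L, ∑ k ∈ range L, (if (j:ℤ) - k = 0 then a else 0) = a := by
    intro j hj
    rw [Finset.sum_eq_single j]
    · simp
    · intro k _ hk
      rw [if_neg]
      omega
    · intro h
      exact absurd hj h
  rw [Finset.sum_congr rfl h, Finset.sum_const, Finset.card_range, nsmul_eq_mul]

lemma count_up (L : ℕ) {a : ℝ} (ha : 0 ≤ a) :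
    ((L : ℝ) - 1) * a ≤ ∑ j ∈ range L, ∑ k ∈ range L, (if (j:ℤ) - k + 1 = 0 then a else 0) := by
  rcases Nat.eq_zero_or_pos L with h0 | h0
  · subst h0
    simp
    linarith
  have h : ∀ j ∈ range (L - 1), a ≤ ∑ k ∈ range L, (if (j:ℤ) - k + 1 = 0 then a else 0) := by
    intro j hj
    rw [Finset.mem_range] at hj
    have h1 : (if (j:ℤ) - ((j + 1 : ℕ) : ℤ) + 1 = 0 then a else 0) = a := by
      rw [if_pos]
      push_cast
      ring
    calc a = (if (j:ℤ) - ((j + 1 : ℕ) : ℤ) + 1 = 0 then a else 0) := h1.symm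
      _ ≤ _ := Finset.single_le_sum (f := fun k : ℕ => (if (j:ℤ) - (k:ℤ) + 1 = 0 then a else 0))
          (fun k _ => by positivity) (Finset.mem_range.2 (by omega))
  calc ((L : ℝ) - 1) * a = ∑ j ∈ range (L - 1), a := by
        rw [Finset.sum_const, Finset.card_range, nsmul_eq_mul, Nat.cast_sub (by omega)]
        push_cast
        ring
    _ ≤ ∑ j ∈ range (L - 1), ∑ k ∈ range L, (if (j:ℤ) - k + 1 = 0 then a else 0) :=
        Finset.sum_le_sum h
    _ ≤ _ := by
        refine Finset.sum_le_sum_of_subset_of_nonneg ?_ ?_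
        · intro j hj
          rw [Finset.mem_range] at hj ⊢
          omega
        · intro j _ _
          exact Finset.sum_nonneg fun k _ => by positivity

lemma count_down (L : ℕ) {a : ℝ} (ha : 0 ≤ a) :
    ((L : ℝ) - 1) * a ≤ ∑ j ∈ range L, ∑ k ∈ range L, (if (j:ℤ) - k - 1 = 0 then a else 0) := by
  have h := count_up L ha
  rw [Finset.sum_comm] at h
  refine h.trans (le_of_eq ?_)
  refine Finset.sum_congr rfl fun j _ => Finset.sum_congr rfl fun k _ => ?_
  have : ((k:ℤ) - j + 1 = 0) ↔ ((j:ℤ) - k - 1 = 0) := by omega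
  simp only [this]

/-- small exponential sums force a residue near any given point -/
lemma kernel_pos {n : ℕ} [NeZero n] {ι : Type*} {I : Finset ι} (hI : 0 < I.card) (z : ι → ZMod n)
    {L : ℕ} (hL : 2 ≤ L) {κ : ℝ} (hκ : 2 * κ * (L:ℝ) ^ 2 < 1)
    (hS : ∀ h : ℤ, h ≠ 0 → |h| ≤ L → ‖∑ i ∈ I, ps n ((h : ZMod n) * z i)‖ ≤ κ * I.card) (ρ : ℝ) :
    ∃ i ∈ I, 1 - 2 / (L:ℝ) < Real.cos (2 * Real.pi * (((z i).val : ℝ) / n - ρ)) := by
  by_contra hcon
  push Not at hcon
  set c : ℝ := 1 - 2 / (L:ℝ) with hc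
  have hLr : (2:ℝ) ≤ L := by exact_mod_cast hL
  have hLpos : (0:ℝ) < L := by linarith
  have hc1 : c ≤ 1 := by
    rw [hc]
    have : 0 ≤ 2 / (L:ℝ) := by positivity
    linarith
  have hc0 : 0 ≤ c := by
    rw [hc]
    have : 2 / (L:ℝ) ≤ 1 := by
      rw [div_le_one hLpos]
      exact hLr
    linarith
  set N : ℝ := (I.card : ℝ) with hN
  have hN0 : 0 < N := by
    rw [hN]
    exact_mod_cast hI
  have hκ0 : 0 ≤ κ := by
    have h1 := hS 1 one_ne_zero (by
      rw [abs_one]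
      exact_mod_cast (by omega : 1 ≤ L))
    have h2 : 0 ≤ κ * N := (norm_nonneg _).trans h1
    by_contra h3
    push Not at h3
    nlinarith
  set t : ι → ℝ := fun i => ((z i).val : ℝ) / n - ρ with ht
  set T : ℤ → ℂ := fun m => ∑ i ∈ I, ee (m * t i) with hT
  have hT0 : T 0 = N := by
    rw [hT]
    simp [ee_zero, hN]
  have hTm : ∀ m : ℤ, m ≠ 0 → |m| ≤ L → ‖T m‖ ≤ κ * N := by
    intro m hm hmL
    have h1 : T m = ee (-(m * ρ)) * ∑ i ∈ I, ps n ((m : ZMod n) * z i) := by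
      rw [hT]
      simp only
      rw [Finset.mul_sum]
      refine Finset.sum_congr rfl fun i _ => ?_
      rw [ps_eq_ee, ← ee_add]
      congr 1
      rw [ht]
      ring
    rw [h1, norm_mul, norm_ee, one_mul]
    exact hS m hm hmL
  have hre1 : ∀ m : ℤ, |m| ≤ L → (if m = 0 then N else 0) - κ * N ≤ (T m).re := by
    intro m hm
    by_cases h0 : m = 0
    · rw [if_pos h0, h0, hT0, Complex.ofReal_re]
      nlinarith
    · rw [if_neg h0]
      have h1 := hTm m h0 hm
      have h2 := Complex.abs_re_le_norm (T m)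
      have h3 := neg_abs_le (T m).re
      linarith
  have hre2 : ∀ m : ℤ, |m| ≤ L → (T m).re ≤ (if m = 0 then N else 0) + κ * N := by
    intro m hm
    by_cases h0 : m = 0
    · rw [if_pos h0, h0, hT0, Complex.ofReal_re]
      nlinarith
    · rw [if_neg h0]
      have h1 := hTm m h0 hm
      have h2 := Complex.abs_re_le_norm (T m)
      have h3 := le_abs_self (T m).re
      linarith
  -- the sum is nonpositive
  have hneg : ∑ i ∈ I, ‖∑ j ∈ range L, ee (j * t i)‖ ^ 2 * (Real.cos (2 * Real.pi * t i) - c) ≤ 0 := by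
    refine Finset.sum_nonpos fun i hi => ?_
    have h1 := hcon i hi
    exact mul_nonpos_of_nonneg_of_nonpos (by positivity) (by linarith)
  have hsum : ((∑ i ∈ I, ‖∑ j ∈ range L, ee (j * t i)‖ ^ 2 * (Real.cos (2 * Real.pi * t i) - c) : ℝ) : ℂ) =
      ∑ j ∈ range L, ∑ k ∈ range L, (T ((j:ℤ) - k + 1) / 2 + T ((j:ℤ) - k - 1) / 2 - c * T ((j:ℤ) - k)) := by
    rw [Complex.ofReal_sum]
    simp_rw [kernel_eq]
    rw [Finset.sum_comm]
    refine Finset.sum_congr rfl fun j _ => ?_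
    rw [Finset.sum_comm]
    refine Finset.sum_congr rfl fun k _ => ?_
    rw [hT]
    simp only
    rw [Finset.sum_div, Finset.sum_div, Finset.mul_sum, ← Finset.sum_add_distrib, ← Finset.sum_sub_distrib]
  have hre : ∑ i ∈ I, ‖∑ j ∈ range L, ee (j * t i)‖ ^ 2 * (Real.cos (2 * Real.pi * t i) - c) =
      ∑ j ∈ range L, ∑ k ∈ range L, ((T ((j:ℤ) - k + 1)).re / 2 + (T ((j:ℤ) - k - 1)).re / 2 -
        c * (T ((j:ℤ) - k)).re) := by
    have h1 := congrArg Complex.re hsum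
    rw [Complex.ofReal_re] at h1
    rw [h1, Complex.re_sum]
    refine Finset.sum_congr rfl fun j _ => ?_
    rw [Complex.re_sum]
    refine Finset.sum_congr rfl fun k _ => ?_
    rw [Complex.sub_re, Complex.add_re, Complex.re_ofReal_mul]
    have h2 : ∀ w : ℂ, (w / 2).re = w.re / 2 := by
      intro w
      have : w / 2 = w / ((2:ℝ) : ℂ) := by norm_num
      rw [this, Complex.div_ofReal_re]
    rw [h2, h2]
  have hlow : ∑ j ∈ range L, ∑ k ∈ range L, ((if (j:ℤ) - k + 1 = 0 then N else 0) / 2 +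
      (if (j:ℤ) - k - 1 = 0 then N else 0) / 2 - c * (if (j:ℤ) - k = 0 then N else 0) - 2 * κ * N) ≤
      ∑ j ∈ range L, ∑ k ∈ range L, ((T ((j:ℤ) - k + 1)).re / 2 + (T ((j:ℤ) - k - 1)).re / 2 -
        c * (T ((j:ℤ) - k)).re) := by
    refine Finset.sum_le_sum fun j hj => Finset.sum_le_sum fun k hk => ?_
    rw [Finset.mem_range] at hj hk
    have b1 : |(j:ℤ) - k + 1| ≤ L := by
      rw [abs_le]
      constructor <;> omega
    have b2 : |(j:ℤ) - k - 1| ≤ L := by
      rw [abs_le]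
      constructor <;> omega
    have b3 : |(j:ℤ) - k| ≤ L := by
      rw [abs_le]
      constructor <;> omega
    have d1 := hre1 _ b1
    have d2 := hre1 _ b2
    have d3 := hre2 _ b3
    have d4 : c * (T ((j:ℤ) - k)).re ≤ c * ((if (j:ℤ) - k = 0 then N else 0) + κ * N) :=
      mul_le_mul_of_nonneg_left d3 hc0
    have d5 : c * (κ * N) ≤ κ * N := by
      have : 0 ≤ κ * N := by positivity
      nlinarith
    nlinarith
  have hval : N * ((L:ℝ) - 1 - c * L - 2 * κ * (L:ℝ) ^ 2) ≤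
      ∑ j ∈ range L, ∑ k ∈ range L, ((if (j:ℤ) - k + 1 = 0 then N else 0) / 2 +
      (if (j:ℤ) - k - 1 = 0 then N else 0) / 2 - c * (if (j:ℤ) - k = 0 then N else 0) - 2 * κ * N) := by
    have e1 : ∑ j ∈ range L, ∑ k ∈ range L, ((if (j:ℤ) - k + 1 = 0 then N else 0) / 2 +
      (if (j:ℤ) - k - 1 = 0 then N else 0) / 2 - c * (if (j:ℤ) - k = 0 then N else 0) - 2 * κ * N) =
      (∑ j ∈ range L, ∑ k ∈ range L, (if (j:ℤ) - k + 1 = 0 then N else 0)) / 2 +
      (∑ j ∈ range L, ∑ k ∈ range L, (if (j:ℤ) - k - 1 = 0 then N else 0)) / 2 -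
      c * (∑ j ∈ range L, ∑ k ∈ range L, (if (j:ℤ) - k = 0 then N else 0)) -
      (L:ℝ) * (L * (2 * κ * N)) := by
      simp only [Finset.sum_sub_distrib, Finset.sum_add_distrib, Finset.sum_div, Finset.mul_sum,
        Finset.sum_const, Finset.card_range, nsmul_eq_mul]
    rw [e1, count_diag]
    have u1 := count_up L hN0.le
    have u2 := count_down L hN0.le
    nlinarith
  have hfin : N * ((L:ℝ) - 1 - c * L - 2 * κ * (L:ℝ) ^ 2) ≤ 0 := by
    linarith [hval, hlow, hneg, hre]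
  have hcL : c * L = L - 2 := by
    rw [hc]
    field_simp
  have hpos : 0 < (L:ℝ) - 1 - c * L - 2 * κ * (L:ℝ) ^ 2 := by
    rw [hcL]
    linarith
  have := mul_pos hN0 hpos
  linarith

/-- **A small residue.** -/
theorem small_residue {n : ℕ} [NeZero n] {ι : Type*} {I : Finset ι} (hI : 0 < I.card) (z : ι → ZMod n)
    {L : ℕ} (hL : 2 ≤ L) {κ : ℝ} (hκ : 2 * κ * (L:ℝ) ^ 2 < 1)
    (hS : ∀ h : ℤ, h ≠ 0 → |h| ≤ L → ‖∑ i ∈ I, ps n ((h : ZMod n) * z i)‖ ≤ κ * I.card) :
    ∃ i ∈ I, 0 < (z i).val ∧ ((z i).val : ℝ) < n / Real.sqrt L := by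
  have hLr : (2:ℝ) ≤ L := by exact_mod_cast hL
  have hLpos : (0:ℝ) < L := by linarith
  have hs0 : 0 < Real.sqrt L := Real.sqrt_pos.2 hLpos
  have hs1 : 1 ≤ Real.sqrt L := by
    rw [Real.one_le_sqrt]
    linarith
  have hss : Real.sqrt L * Real.sqrt L = L := Real.mul_self_sqrt hLpos.le
  set ρ : ℝ := 1 / (2 * Real.sqrt L) with hρ
  have hρ0 : 0 < ρ := by positivity
  have hρ1 : ρ ≤ 1 / 2 := by
    rw [hρ]
    apply one_div_le_one_div_of_le (by norm_num)
    linarith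
  obtain ⟨i, hi, hcos⟩ := kernel_pos hI z hL hκ hS ρ
  have hn : (0:ℝ) < n := by
    have : 0 < n := Nat.pos_of_ne_zero (NeZero.ne n)
    exact_mod_cast this
  refine ⟨i, hi, ?_⟩
  set u : ℝ := ((z i).val : ℝ) / n with hu
  have hu0 : 0 ≤ u := by positivity
  have hu1 : u < 1 := by
    rw [hu, div_lt_one hn]
    exact_mod_cast ZMod.val_lt (z i)
  have hpi := Real.pi_pos
  have hcρ : Real.cos (2 * Real.pi * ρ) ≤ 1 - 2 / (L:ℝ) := by
    have h1 : |2 * Real.pi * ρ| ≤ Real.pi := by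
      rw [abs_of_pos (by positivity)]
      nlinarith
    refine (Real.cos_le_one_sub_mul_cos_sq h1).trans (le_of_eq ?_)
    rw [hρ]
    have h2 : 2 / Real.pi ^ 2 * (2 * Real.pi * (1 / (2 * Real.sqrt L))) ^ 2 = 2 / (Real.sqrt L * Real.sqrt L) := by
      field_simp
    rw [h2, hss]
  have hlt : Real.cos (2 * Real.pi * ρ) < Real.cos (2 * Real.pi * (u - ρ)) := lt_of_le_of_lt hcρ hcos
  have hupper : u - ρ < ρ := by
    by_contra h
    push Not at h
    rcases le_total (u - ρ) (1/2) with h2 | h2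
    · have h3 : Real.cos (2 * Real.pi * (u - ρ)) ≤ Real.cos (2 * Real.pi * ρ) := by
        apply Real.cos_le_cos_of_nonneg_of_le_pi (by positivity)
        · nlinarith
        · nlinarith
      linarith
    · have h3 : Real.cos (2 * Real.pi * (u - ρ)) = Real.cos (2 * Real.pi * (1 - (u - ρ))) := by
        rw [← Real.cos_two_pi_sub]
        congr 1
        ring
      have h4 : Real.cos (2 * Real.pi * (1 - (u - ρ))) ≤ Real.cos (2 * Real.pi * ρ) := by
        apply Real.cos_le_cos_of_nonneg_of_le_pi (by positivity)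
        · nlinarith
        · nlinarith
      linarith
  have hlower : -ρ < u - ρ := by
    rcases hu0.eq_or_lt with h | h
    · exfalso
      rw [← h, zero_sub, mul_neg, Real.cos_neg] at hlt
      exact lt_irrefl _ hlt
    · linarith
  constructor
  · have h1 : 0 < u := by linarith
    rw [hu] at h1
    have h2 : 0 < ((z i).val : ℝ) := by
      by_contra h3
      push Not at h3
      have : ((z i).val : ℝ) / n ≤ 0 := div_nonpos_of_nonpos_of_nonneg h3 hn.le
      linarith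
    exact_mod_cast h2
  · have h1 : u < 1 / Real.sqrt L := by
      have h2 : u < 2 * ρ := by linarith
      have h3 : 2 * ρ = 1 / Real.sqrt L := by
        rw [hρ]
        field_simp
      linarith
    rw [hu, div_lt_iff₀ hn] at h1
    calc ((z i).val : ℝ) < 1 / Real.sqrt L * n := h1
      _ = n / Real.sqrt L := by ring

end Pool.Agent.Helper76.MH
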