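import Pool.Agent.Helper76.MH.Key

/-!
# The number of vertices of the convex hull of the modular hyperbola tends to infinity
-/

open Filter

namespace Pool.Agent.Helper76.MH

/-- the modular hyperbola -/
def Hyp (n : ℕ) : Set (ℝ × ℝ) :=
  {p : ℝ × ℝ | ∃ x y : ℕ, 1 ≤ x ∧ x ≤ n - 1 ∧ 1 ≤ y ∧ y ≤ n - 1 ∧
    Nat.ModEq n (x * y) 1 ∧ p = ((x : ℝ), (y : ℝ))}

lemma hyp_finite (n : ℕ) : (Hyp n).Finite := by
  have h : Hyp n ⊆ (fun q : ℕ × ℕ => ((q.1 : ℝ), (q.2 : ℝ))) '' (Set.Iic n ×ˢ Set.Iic n) := by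
    rintro p ⟨x, y, h1, h2, h3, h4, h5, rfl⟩
    exact ⟨(x, y), ⟨by simp only [Set.mem_Iic]; omega, by simp only [Set.mem_Iic]; omega⟩, rfl⟩
  exact Set.Finite.subset (((Set.finite_Iic n).prod (Set.finite_Iic n)).image _) h

/-- a linear functional attains its maximum over a finite set at an extreme point of the hull -/
lemma exists_extreme {H : Set (ℝ × ℝ)} (hf : H.Finite) (hne : H.Nonempty) (φ : (ℝ × ℝ) →L[ℝ] ℝ) :
    ∃ e ∈ Set.extremePoints ℝ (convexHull ℝ H), ∀ z ∈ H, φ z ≤ φ e := by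
  have hK : IsCompact (convexHull ℝ H) := hf.isCompact_convexHull ℝ
  have hKne : (convexHull ℝ H).Nonempty := hne.mono (subset_convexHull ℝ H)
  obtain ⟨w, hw, hmax⟩ := hK.exists_isMaxOn hKne φ.continuous.continuousOn
  have hexp : IsExposed ℝ (convexHull ℝ H) (φ.toExposed (convexHull ℝ H)) :=
    ContinuousLinearMap.toExposed.isExposed
  have hF : IsCompact (φ.toExposed (convexHull ℝ H)) := hexp.isCompact hK
  have hFne : (φ.toExposed (convexHull ℝ H)).Nonempty := ⟨w, hw, fun y hy => hmax hy⟩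
  obtain ⟨e, he⟩ := hF.extremePoints_nonempty hFne
  refine ⟨e, hexp.isExtreme.extremePoints_subset_extremePoints he, fun z hz => ?_⟩
  exact (extremePoints_subset he).2 z (subset_convexHull ℝ H hz)

/-- the functional `(x, y) ↦ y - s x` -/
noncomputable def fnl (s : ℝ) : (ℝ × ℝ) →L[ℝ] ℝ :=
  ContinuousLinearMap.snd ℝ ℝ ℝ - s • ContinuousLinearMap.fst ℝ ℝ ℝ

lemma fnl_apply (s : ℝ) (p : ℝ × ℝ) : fnl s p = p.2 - s * p.1 := by
  simp [fnl]

/-- **One vertex at each scale.** -/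
lemma scale_vertex {n : ℕ} (hn : 2 ≤ n) {d d' : ℝ} (hd0 : 0 < d) (hd1 : d' < 1) {x y : ℕ} (hx : 0 < x)
    (hy : 0 < y) (hxy : n ∣ x * y + 1) (hx1 : (x:ℝ) ≤ (n:ℝ) ^ d') (hy1 : (y:ℝ) ≤ (n:ℝ) ^ (1 - d)) :
    ∃ e ∈ Set.extremePoints ℝ (convexHull ℝ (Hyp n)),
      (n:ℝ) ^ d / 4 ≤ e.1 ∧ e.1 ≤ 2 * (n:ℝ) ^ d' := by
  have hnr : (2:ℝ) ≤ n := by exact_mod_cast hn
  have hn0 : (0:ℝ) < n := by linarith
  have hn1 : (1:ℝ) < n := by linarith
  have hxn : x ≤ n - 1 := by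
    have h1 : (x:ℝ) < n := by
      calc (x:ℝ) ≤ (n:ℝ) ^ d' := hx1
        _ < (n:ℝ) ^ (1:ℝ) := Real.rpow_lt_rpow_of_exponent_lt hn1 hd1
        _ = n := Real.rpow_one _
    have h2 : x < n := by exact_mod_cast h1
    omega
  have hyn : y ≤ n - 1 := by
    have h1 : (y:ℝ) < n := by
      calc (y:ℝ) ≤ (n:ℝ) ^ (1 - d) := hy1
        _ < (n:ℝ) ^ (1:ℝ) := Real.rpow_lt_rpow_of_exponent_lt hn1 (by linarith)
        _ = n := Real.rpow_one _
    have h2 : y < n := by exact_mod_cast h1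
    omega
  have hmem : ((x:ℝ), ((n - y : ℕ) : ℝ)) ∈ Hyp n := by
    refine ⟨x, n - y, hx, hxn, by omega, by omega, ?_, rfl⟩
    have h1 : x * (n - y) + (x * y + 1) = 1 + x * n := by
      have : x * (n - y) + x * y = x * n := by
        rw [← Nat.mul_add]
        congr 1
        omega
      omega
    have h2 : Nat.ModEq n (x * (n - y) + (x * y + 1)) (1 + 0) := by
      rw [h1]
      exact Nat.ModEq.add_left 1 ((Nat.modEq_zero_iff_dvd).2 (Dvd.intro_left x rfl))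
    have h3 : Nat.ModEq n (x * y + 1) 0 := (Nat.modEq_zero_iff_dvd).2 hxy
    exact Nat.ModEq.add_right_cancel h3 h2
  set s : ℝ := (n:ℝ) ^ (1 - d - d') with hs
  have hs0 : 0 < s := by positivity
  obtain ⟨e, he, hmax⟩ := exists_extreme (hyp_finite n) ⟨_, hmem⟩ (fnl s)
  refine ⟨e, he, ?_⟩
  have h1 := hmax _ hmem
  rw [fnl_apply, fnl_apply] at h1
  have heH : e ∈ Hyp n := extremePoints_convexHull_subset he
  obtain ⟨X, Y, hX1, hX2, hY1, hY2, hXY, rfl⟩ := heH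
  simp only at h1 ⊢
  have hYn : ((n - y : ℕ) : ℝ) = (n:ℝ) - y := by rw [Nat.cast_sub (by omega)]
  rw [hYn] at h1
  set Y' : ℕ := n - Y with hY'
  have hY'r : (Y':ℝ) = (n:ℝ) - Y := by rw [hY', Nat.cast_sub (by omega)]
  have hX0 : (0:ℝ) < X := by exact_mod_cast hX1
  have hY'1 : 1 ≤ Y' := by omega
  have hY'0 : (0:ℝ) < Y' := by exact_mod_cast hY'1
  have hsx : s * x ≤ (n:ℝ) ^ (1 - d) := by
    calc s * x ≤ s * (n:ℝ) ^ d' := by gcongr
      _ = (n:ℝ) ^ (1 - d) := by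
          rw [hs, ← Real.rpow_add hn0]
          congr 1
          ring
  have hsum : (Y':ℝ) + s * X ≤ 2 * (n:ℝ) ^ (1 - d) := by
    rw [hY'r]
    linarith
  have hprod : (n:ℝ) ≤ X * Y' + 1 := by
    have h2 : n ∣ X * Y' + 1 := by
      have h3 : X * Y' + X * Y = X * n := by
        rw [← Nat.mul_add]
        congr 1
        omega
      have h4 : Nat.ModEq n (X * Y' + X * Y) 0 := by
        rw [h3]
        exact (Nat.modEq_zero_iff_dvd).2 (Dvd.intro_left X rfl)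
      have h5 : Nat.ModEq n (X * Y' + 1) (X * Y' + X * Y) := Nat.ModEq.add_left _ hXY.symm
      exact (Nat.modEq_zero_iff_dvd).1 (h5.trans h4)
    have h3 : n ≤ X * Y' + 1 := Nat.le_of_dvd (by omega) h2
    exact_mod_cast h3
  constructor
  · have h2 : (Y':ℝ) ≤ 2 * (n:ℝ) ^ (1 - d) := by
      have : 0 < s * X := by positivity
      linarith
    have h3 : (n:ℝ) / 2 ≤ X * (2 * (n:ℝ) ^ (1 - d)) := by
      calc (n:ℝ) / 2 ≤ X * Y' := by linarith
        _ ≤ X * (2 * (n:ℝ) ^ (1 - d)) := by gcongr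
    have h4 : (n:ℝ) = (n:ℝ) ^ d * (n:ℝ) ^ (1 - d) := by
      rw [← Real.rpow_add hn0]
      have : d + (1 - d) = 1 := by ring
      rw [this, Real.rpow_one]
    have h5 : 0 < (n:ℝ) ^ (1 - d) := by positivity
    have h6 : (n:ℝ) ^ d * (n:ℝ) ^ (1 - d) ≤ 4 * X * (n:ℝ) ^ (1 - d) := by
      rw [← h4]
      linarith
    have h7 := le_of_mul_le_mul_right h6 h5
    linarith
  · have h2 : s * X ≤ 2 * (n:ℝ) ^ (1 - d) := by linarith
    have h3 : 2 * (n:ℝ) ^ (1 - d) = s * (2 * (n:ℝ) ^ d') := by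
      have : (n:ℝ) ^ (1 - d) = s * (n:ℝ) ^ d' := by
        rw [hs, ← Real.rpow_add hn0]
        congr 1
        ring
      rw [this]
      ring
    rw [h3] at h2
    exact le_of_mul_le_mul_left h2 hs0

/-- the sequence of parameters -/
def rho : ℕ → ℕ
  | 0 => 2
  | k + 1 => 1024 * rho k ^ 3

lemma rho_ge (k : ℕ) : 2 ≤ rho k := by
  induction k with
  | zero => exact le_refl 2
  | succ k ih =>
    change 2 ≤ 1024 * rho k ^ 3
    have : 1 ≤ rho k ^ 3 := Nat.one_le_pow _ _ (by omega)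
    omega

/-- the lower exponent -/
noncomputable def dl (k : ℕ) : ℝ := 1 / (256 * (rho k : ℝ) ^ 3)

/-- the upper exponent -/
noncomputable def du (k : ℕ) : ℝ := 4 / (4 * (rho k : ℝ) - 1)

lemma dl_pos (k : ℕ) : 0 < dl k := by
  unfold dl
  have : (0:ℝ) < rho k := by
    have := rho_ge k
    have h : 0 < rho k := by omega
    exact_mod_cast h
  positivity

lemma du_lt_one (k : ℕ) : du k < 1 := by
  unfold du
  have h : (2:ℝ) ≤ rho k := by exact_mod_cast rho_ge k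
  rw [div_lt_one (by linarith)]
  linarith

lemma du_lt_dl (k : ℕ) : du (k + 1) < dl k := by
  unfold du dl
  have h : (2:ℝ) ≤ rho k := by exact_mod_cast rho_ge k
  have e : (rho (k + 1) : ℝ) = 1024 * (rho k : ℝ) ^ 3 := by
    change ((1024 * rho k ^ 3 : ℕ) : ℝ) = _
    push_cast
    rfl
  rw [e]
  have h3 : (1:ℝ) ≤ (rho k : ℝ) ^ 3 := one_le_pow₀ (by linarith)
  rw [div_lt_div_iff₀ (by linarith) (by positivity)]
  linarith

/-- **The number of vertices tends to infinity.** -/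
theorem many_vertices (M : ℕ) : ∀ᶠ n : ℕ in atTop,
    M ≤ (Set.extremePoints ℝ (convexHull ℝ (Hyp n))).ncard := by
  have hkey : ∀ k : ℕ, ∀ᶠ n : ℕ in atTop, ∃ x y : ℕ, 0 < x ∧ 0 < y ∧ n ∣ x * y + 1 ∧
      (x:ℝ) ≤ (n:ℝ) ^ (du k) ∧ (y:ℝ) ≤ (n:ℝ) ^ (1 - dl k) := fun k => key (rho_ge k)
  have hall : ∀ᶠ n : ℕ in atTop, ∀ k ∈ Finset.range M, (∃ x y : ℕ, 0 < x ∧ 0 < y ∧ n ∣ x * y + 1 ∧
      (x:ℝ) ≤ (n:ℝ) ^ (du k) ∧ (y:ℝ) ≤ (n:ℝ) ^ (1 - dl k)) ∧
      9 ≤ (n:ℝ) ^ (dl k - du (k + 1)) := by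
    rw [Filter.eventually_all_finset]
    intro k _
    exact (hkey k).and (ev_const 9 (by have := du_lt_dl k; linarith))
  filter_upwards [hall, eventually_ge_atTop 2] with n hn hn2
  have hn0 : (0:ℝ) < n := by
    have : 0 < n := by omega
    exact_mod_cast this
  have hex : ∀ k : Fin M, ∃ e ∈ Set.extremePoints ℝ (convexHull ℝ (Hyp n)),
      (n:ℝ) ^ (dl k) / 4 ≤ e.1 ∧ e.1 ≤ 2 * (n:ℝ) ^ (du k) := by
    intro k
    obtain ⟨⟨x, y, h1, h2, h3, h4, h5⟩, _⟩ := hn k (Finset.mem_range.2 k.2)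
    exact scale_vertex hn2 (dl_pos k) (du_lt_one k) h1 h2 h3 h4 h5
  choose e he1 he2 he3 using hex
  have hstep : ∀ j k : ℕ, ∀ hj : j < M, ∀ hk : k < M, j < k → (e ⟨k, hk⟩).1 < (e ⟨j, hj⟩).1 := by
    intro j k hj hk hjk
    induction k, hjk using Nat.le_induction with
    | base =>
      have h1 := (hn j (Finset.mem_range.2 hj)).2
      have h2 := he3 ⟨j + 1, hk⟩
      have h3 := he2 ⟨j, hj⟩
      simp only at h2 h3
      have h4 : (n:ℝ) ^ (dl j) = (n:ℝ) ^ (dl j - du (j + 1)) * (n:ℝ) ^ (du (j + 1)) := by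
        rw [← Real.rpow_add hn0]
        congr 1
        ring
      have h5 : 0 < (n:ℝ) ^ (du (j + 1)) := by positivity
      have h6 : 9 * (n:ℝ) ^ (du (j + 1)) ≤ (n:ℝ) ^ (dl j) := by
        rw [h4]
        gcongr
      change (e ⟨j + 1, hk⟩).1 < (e ⟨j, hj⟩).1
      linarith
    | succ k hjk ih =>
      have hk' : k < M := by omega
      have h0 := ih hk'
      have h1 := (hn k (Finset.mem_range.2 hk')).2
      have h2 := he3 ⟨k + 1, hk⟩
      have h3 := he2 ⟨k, hk'⟩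
      simp only at h2 h3
      have h4 : (n:ℝ) ^ (dl k) = (n:ℝ) ^ (dl k - du (k + 1)) * (n:ℝ) ^ (du (k + 1)) := by
        rw [← Real.rpow_add hn0]
        congr 1
        ring
      have h5 : 0 < (n:ℝ) ^ (du (k + 1)) := by positivity
      have h6 : 9 * (n:ℝ) ^ (du (k + 1)) ≤ (n:ℝ) ^ (dl k) := by
        rw [h4]
        gcongr
      linarith
  have hinj : Function.Injective e := by
    intro j k hjk
    rcases lt_trichotomy (j:ℕ) k with h | h | h
    · have := hstep j k j.2 k.2 h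
      simp only [Fin.eta] at this
      rw [hjk] at this
      exact absurd this (lt_irrefl _)
    · exact Fin.ext h
    · have := hstep k j k.2 j.2 h
      simp only [Fin.eta] at this
      rw [hjk] at this
      exact absurd this (lt_irrefl _)
  have hfin : (Set.extremePoints ℝ (convexHull ℝ (Hyp n))).Finite :=
    (hyp_finite n).subset extremePoints_convexHull_subset
  have h1 : (Set.range e).ncard = M := by
    rw [← Set.image_univ, Set.ncard_image_of_injective _ hinj, Set.ncard_univ, Nat.card_fin]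
  rw [← h1]
  exact Set.ncard_le_ncard (by rintro _ ⟨k, rfl⟩; exact he1 k) hfin

end Pool.Agent.Helper76.MH
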