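import Pool.Agent.Helper76.MH.Primes

/-!
# The key claim: unbalanced solutions of `x y ≡ -1 mod n` below the square root barrier
-/

open Finset Filter

namespace Pool.Agent.Helper76.MH

theorem key {r : ℕ} (hr : 2 ≤ r) : ∀ᶠ n : ℕ in atTop, ∃ x y : ℕ, 0 < x ∧ 0 < y ∧ n ∣ x * y + 1 ∧
    (x:ℝ) ≤ (n:ℝ) ^ (4 / (4 * (r:ℝ) - 1)) ∧ (y:ℝ) ≤ (n:ℝ) ^ (1 - 1 / (256 * (r:ℝ) ^ 3)) := by
  have hrr : (2:ℝ) ≤ r := by exact_mod_cast hr
  have hr0 : (0:ℝ) < r := by linarith
  set a : ℝ := 2 / (4 * (r:ℝ) - 1) with ha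
  set b : ℝ := 1 / (64 * (r:ℝ) ^ 3) with hb
  set e : ℝ := (1 + 1 / (8 * (r:ℝ))) / (2 * r) with he
  have h41 : 0 < 4 * (r:ℝ) - 1 := by linarith
  have ha0 : 0 < a := by positivity
  have ha1 : a ≤ 1 := by
    rw [ha, div_le_one h41]
    linarith
  have hb0 : 0 < b := by positivity
  have he0 : 0 < e := by positivity
  have hea : e < a := by
    rw [he, ha, div_lt_div_iff₀ (by positivity) h41]
    have h1 : (1 + 1 / (8 * (r:ℝ))) * (4 * r - 1) = 4 * r - 1/2 - 1 / (8 * r) := by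
      field_simp
      ring
    rw [h1]
    have h2 : 0 < 1 / (8 * (r:ℝ)) := by positivity
    linarith
  set c3 : ℝ := 1 / (4 * (r:ℝ) - 1) - b with hc3
  have hc30 : 0 < c3 := by
    rw [hc3, hb]
    have h1 : 1 / (64 * (r:ℝ) ^ 3) < 1 / (4 * (r:ℝ) - 1) := by
      apply one_div_lt_one_div_of_lt h41
      nlinarith [pow_pos hr0 2, pow_pos hr0 3, mul_pos hr0 hr0]
    linarith
  have h16 : 0 < 1 / (16 * (r:ℝ)) := by positivity
  filter_upwards [eventually_ge_atTop 2, PS_lower r ha1 he0 hea,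
    ev_const ((r:ℝ) ^ (2 * r) * 4 ^ (2 * r ^ 2)) h16, ev_const ((r:ℝ) + 1) hc30,
    ev_const 2 (show 0 < b / 2 by linarith)] with n hn h1 h2 h3 h4
  have : NeZero n := ⟨by omega⟩
  have hnr : (2:ℝ) ≤ n := by exact_mod_cast hn
  have hn0 : (0:ℝ) < n := by linarith
  have hn1 : (1:ℝ) ≤ n := by linarith
  set N : ℝ := (n:ℝ) with hN
  set P : ℕ := ⌊N ^ a⌋₊ with hP
  set L : ℕ := ⌊N ^ b⌋₊ with hL
  set S := PS n r P with hS
  set R : ℝ := (S.card : ℝ) with hR
  have hPle : (P:ℝ) ≤ N ^ a := Nat.floor_le (by positivity)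
  have hLle : (L:ℝ) ≤ N ^ b := Nat.floor_le (by positivity)
  have hLge : N ^ (b / 2) ≤ L := by
    have h5 : N ^ b < (L:ℝ) + 1 := Nat.lt_floor_add_one _
    have h6 : N ^ b = N ^ (b / 2) * N ^ (b / 2) := by
      rw [← Real.rpow_add hn0]
      congr 1
      ring
    nlinarith
  have hL2 : (2:ℝ) ≤ L := h4.trans hLge
  have hL2' : 2 ≤ L := by exact_mod_cast hL2
  have hL0 : (0:ℝ) < L := by linarith
  have hR0 : 0 < R := lt_of_lt_of_le (by positivity) h1
  have hScard : 0 < S.card := by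
    have h := hR0
    rw [hR] at h
    exact_mod_cast h
  -- the size condition
  have hsize : L * r * P ^ (2 * r - 1) < n := by
    have h5 : ((L * r * P ^ (2 * r - 1) : ℕ) : ℝ) < N := by
      push_cast
      have h6 : (P:ℝ) ^ (2 * r - 1) ≤ N ^ (1 - 1 / (4 * (r:ℝ) - 1)) := by
        calc (P:ℝ) ^ (2 * r - 1) ≤ (N ^ a) ^ (2 * r - 1) := by gcongr
          _ = N ^ (a * ((2 * r - 1 : ℕ) : ℝ)) := by rw [Real.rpow_mul hn0.le, Real.rpow_natCast]
          _ = N ^ (1 - 1 / (4 * (r:ℝ) - 1)) := by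
              congr 1
              rw [Nat.cast_sub (by omega), ha]
              push_cast
              field_simp
              ring
      calc (L:ℝ) * r * (P:ℝ) ^ (2 * r - 1) ≤ N ^ b * r * N ^ (1 - 1 / (4 * (r:ℝ) - 1)) := by gcongr
        _ = r * (N ^ b * N ^ (1 - 1 / (4 * (r:ℝ) - 1))) := by ring
        _ = r * N ^ (1 - c3) := by
            rw [← Real.rpow_add hn0]
            congr 2
            rw [hc3]
            ring
        _ < (r + 1) * N ^ (1 - c3) := by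
            have : 0 < N ^ (1 - c3) := by positivity
            nlinarith
        _ ≤ N ^ c3 * N ^ (1 - c3) := by gcongr
        _ = N := by
            rw [← Real.rpow_add hn0]
            have : c3 + (1 - c3) = 1 := by ring
            rw [this, Real.rpow_one]
    rw [hN] at h5
    exact_mod_cast h5
  -- the exponential sums
  set κ : ℝ := 1 / (4 * (L:ℝ) ^ 2) with hκ
  have hκ0 : 0 < κ := by positivity
  have hκ1 : 2 * κ * (L:ℝ) ^ 2 < 1 := by
    rw [hκ]
    have : 2 * (1 / (4 * (L:ℝ) ^ 2)) * (L:ℝ) ^ 2 = 1 / 2 := by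
      field_simp
      norm_num
    rw [this]
    norm_num
  have hmain : N * (r:ℝ) ^ (2 * r) * (4 * (L:ℝ) ^ 2) ^ (2 * r ^ 2) ≤ R ^ (2 * r) := by
    have h5 : (4 * (L:ℝ) ^ 2) ^ (2 * r ^ 2) ≤ 4 ^ (2 * r ^ 2) * N ^ (1 / (16 * (r:ℝ))) := by
      rw [mul_pow, ← pow_mul]
      have h6 : (L:ℝ) ^ (2 * (2 * r ^ 2)) ≤ N ^ (1 / (16 * (r:ℝ))) := by
        calc (L:ℝ) ^ (2 * (2 * r ^ 2)) ≤ (N ^ b) ^ (2 * (2 * r ^ 2)) := by gcongr
          _ = N ^ (b * ((2 * (2 * r ^ 2) : ℕ) : ℝ)) := by rw [Real.rpow_mul hn0.le, Real.rpow_natCast]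
          _ = N ^ (1 / (16 * (r:ℝ))) := by
              congr 1
              rw [hb]
              push_cast
              field_simp
              norm_num
      gcongr
    calc N * (r:ℝ) ^ (2 * r) * (4 * (L:ℝ) ^ 2) ^ (2 * r ^ 2)
        ≤ N * (r:ℝ) ^ (2 * r) * (4 ^ (2 * r ^ 2) * N ^ (1 / (16 * (r:ℝ)))) := by gcongr
      _ = N * ((r:ℝ) ^ (2 * r) * 4 ^ (2 * r ^ 2)) * N ^ (1 / (16 * (r:ℝ))) := by ring
      _ ≤ N * N ^ (1 / (16 * (r:ℝ))) * N ^ (1 / (16 * (r:ℝ))) := by gcongr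
      _ = (N ^ e) ^ (2 * r) := by
          have h7 : N * N ^ (1 / (16 * (r:ℝ))) * N ^ (1 / (16 * (r:ℝ))) =
              N ^ (1 + 1 / (16 * (r:ℝ)) + 1 / (16 * (r:ℝ))) := by
            rw [Real.rpow_add hn0, Real.rpow_add hn0, Real.rpow_one]
          rw [h7, ← Real.rpow_natCast, ← Real.rpow_mul hn0.le]
          congr 1
          rw [he]
          push_cast
          field_simp
          ring
      _ ≤ R ^ (2 * r) := by gcongr
  have hexp : ∀ h : ℤ, h ≠ 0 → |h| ≤ L →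
      ‖∑ i ∈ S ×ˢ S, ps n ((h : ZMod n) * (-(iv n i.1 * iv n i.2)))‖ ≤ κ * (S ×ˢ S).card := by
    intro h h0 hh
    have h5 : ∑ i ∈ S ×ˢ S, ps n ((h : ZMod n) * (-(iv n i.1 * iv n i.2))) =
        ∑ p ∈ S, ∑ q ∈ S, ps n (((-h : ℤ) : ZMod n) * iv n p * iv n q) := by
      rw [Finset.sum_product]
      refine Finset.sum_congr rfl fun p _ => Finset.sum_congr rfl fun q _ => ?_
      congr 1
      push_cast
      ring
    rw [h5]
    have h6 := bilinear (n := n) (r := r) (by omega) S (-h)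
    have h7 := J_le (PS_primeSet n r P) (by omega : 1 ≤ r) hsize (neg_ne_zero.2 h0)
      (by rwa [abs_neg])
    have h8 : (J n r S (-h) : ℝ) ≤ (r:ℝ) ^ r * R ^ r := by
      rw [hR]
      exact_mod_cast h7
    rw [Finset.card_product, Nat.cast_mul]
    have h9 : (‖∑ p ∈ S, ∑ q ∈ S, ps n (((-h : ℤ) : ZMod n) * iv n p * iv n q)‖) ^ (r * (2 * r)) ≤
        (κ * (R * R)) ^ (r * (2 * r)) := by
      refine h6.trans ?_
      have h10 : (4 * (L:ℝ) ^ 2) ^ (2 * r ^ 2) > 0 := by positivity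
      have h11 : (κ * (R * R)) ^ (r * (2 * r)) = R ^ (4 * r ^ 2) / (4 * (L:ℝ) ^ 2) ^ (2 * r ^ 2) := by
        rw [hκ, one_div_mul_eq_div, div_pow]
        have e1 : r * (2 * r) = 2 * r ^ 2 := by ring
        rw [e1, ← pow_two, ← pow_mul]
        congr 2
        ring
      rw [h11, le_div_iff₀ h10]
      have e2 : 4 * r * (r - 1) + 2 * r + 2 * r = 4 * r ^ 2 := by
        obtain ⟨k, rfl⟩ : ∃ k, r = k + 1 := ⟨r - 1, by omega⟩
        rw [Nat.add_sub_cancel]
        ring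
      calc R ^ (4 * r * (r - 1)) * (N * (J n r S (-h) : ℝ) ^ 2) * (4 * (L:ℝ) ^ 2) ^ (2 * r ^ 2)
          ≤ R ^ (4 * r * (r - 1)) * (N * ((r:ℝ) ^ r * R ^ r) ^ 2) * (4 * (L:ℝ) ^ 2) ^ (2 * r ^ 2) := by
            gcongr
        _ = R ^ (4 * r * (r - 1)) * R ^ (2 * r) * (N * (r:ℝ) ^ (2 * r) * (4 * (L:ℝ) ^ 2) ^ (2 * r ^ 2)) := by
            rw [mul_pow, ← pow_mul, ← pow_mul, mul_comm r 2]
            ring
        _ ≤ R ^ (4 * r * (r - 1)) * R ^ (2 * r) * R ^ (2 * r) := by gcongr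
        _ = R ^ (4 * r ^ 2) := by rw [← pow_add, ← pow_add, e2]
    have hne : r * (2 * r) ≠ 0 := by positivity
    exact le_of_pow_le_pow_left₀ hne (by positivity) h9
  -- the residue
  have hI : 0 < (S ×ˢ S).card := by
    rw [Finset.card_product]
    positivity
  obtain ⟨⟨p, q⟩, hpq, hz1, hz2⟩ := small_residue hI
    (fun i : ℕ × ℕ => -(iv n i.1 * iv n i.2)) hL2' hκ1 hexp
  rw [Finset.mem_product] at hpq
  obtain ⟨hp, hq⟩ := hpq
  simp only at hp hq hz1 hz2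
  set z : ZMod n := -(iv n p * iv n q) with hz
  have hSP := PS_primeSet n r P
  refine ⟨p * q, z.val, ?_, hz1, ?_, ?_, ?_⟩
  · exact Nat.mul_pos (hSP.prime p hp).pos (hSP.prime q hq).pos
  · rw [← CharP.cast_eq_zero_iff (ZMod n) n]
    push_cast
    rw [ZMod.natCast_zmod_val, hz]
    have e1 := iv_mul (hSP.cop p hp)
    have e2 := iv_mul (hSP.cop q hq)
    calc (p : ZMod n) * q * (-(iv n p * iv n q)) + 1 =
        -(((p : ZMod n) * iv n p) * ((q : ZMod n) * iv n q)) + 1 := by ring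
      _ = 0 := by
          rw [e1, e2]
          ring
  · push_cast
    have h5 : (p:ℝ) ≤ N ^ a := by
      have : (p:ℝ) ≤ P := by exact_mod_cast hSP.le p hp
      linarith
    have h6 : (q:ℝ) ≤ N ^ a := by
      have : (q:ℝ) ≤ P := by exact_mod_cast hSP.le q hq
      linarith
    calc (p:ℝ) * q ≤ N ^ a * N ^ a := by gcongr
      _ = N ^ (4 / (4 * (r:ℝ) - 1)) := by
          rw [← Real.rpow_add hn0]
          congr 1
          rw [ha]
          ring
  · refine hz2.le.trans ?_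
    have h5 : N ^ (b / 4) ≤ Real.sqrt L := by
      rw [Real.le_sqrt (by positivity) (by positivity)]
      calc (N ^ (b / 4)) ^ 2 = N ^ (b / 2) := by
            rw [← Real.rpow_natCast, ← Real.rpow_mul hn0.le]
            congr 1
            push_cast
            ring
        _ ≤ L := hLge
    have h6 : 0 < N ^ (b / 4) := by positivity
    calc N / Real.sqrt L ≤ N / N ^ (b / 4) := by gcongr
      _ = N ^ (1 - 1 / (256 * (r:ℝ) ^ 3)) := by
          rw [Real.rpow_sub hn0, Real.rpow_one]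
          congr 2
          rw [hb]
          ring

end Pool.Agent.Helper76.MH
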