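import Pool.Agent.Helper76.MH.Fejer

/-!
# The set of primes and asymptotic parameters
-/

open Finset Filter

namespace Pool.Agent.Helper76.MH

lemma ev_const (C : ℝ) {δ : ℝ} (hδ : 0 < δ) : ∀ᶠ n : ℕ in atTop, C ≤ (n:ℝ) ^ δ :=
  ((tendsto_rpow_atTop hδ).comp tendsto_natCast_atTop_atTop).eventually_ge_atTop C

lemma ev_log {δ : ℝ} (hδ : 0 < δ) : ∀ᶠ n : ℕ in atTop, Real.log n ≤ (n:ℝ) ^ δ := by
  have h2 : 0 < δ / 2 := by linarith
  filter_upwards [ev_const (1 / (δ / 2)) h2, eventually_ge_atTop 1] with n hn hn1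
  have hn0 : (0:ℝ) < n := by exact_mod_cast hn1
  have h3 := Real.log_le_rpow_div hn0.le h2
  calc Real.log n ≤ (n:ℝ) ^ (δ / 2) / (δ / 2) := h3
    _ = (n:ℝ) ^ (δ / 2) * (1 / (δ / 2)) := by ring
    _ ≤ (n:ℝ) ^ (δ / 2) * (n:ℝ) ^ (δ / 2) := by gcongr
    _ = (n:ℝ) ^ δ := by
        rw [← Real.rpow_add hn0]
        congr 1
        ring

lemma card_primeFactors_le {n : ℕ} (hn : n ≠ 0) : (n.primeFactors.card : ℝ) ≤ 2 * Real.log n := by
  have h1 : 2 ^ n.primeFactors.card ≤ n := by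
    calc 2 ^ n.primeFactors.card = ∏ p ∈ n.primeFactors, 2 := by rw [Finset.prod_const]
      _ ≤ ∏ p ∈ n.primeFactors, p :=
          Finset.prod_le_prod' fun p hp => (Nat.prime_of_mem_primeFactors hp).two_le
      _ ≤ n := Nat.le_of_dvd (Nat.pos_of_ne_zero hn) (Nat.prod_primeFactors_dvd n)
  have h2 : (2:ℝ) ^ n.primeFactors.card ≤ n := by exact_mod_cast h1
  have h3 := Real.log_le_log (by positivity) h2
  rw [Real.log_pow] at h3
  have h4 : (1/2 : ℝ) ≤ Real.log 2 := by
    have := Real.log_two_gt_d9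
    linarith
  have h5 : (0:ℝ) ≤ n.primeFactors.card := Nat.cast_nonneg _
  nlinarith

/-- the primes in `(r, P]` prime to `n` -/
def PS (n r P : ℕ) : Finset ℕ :=
  (Nat.primesLE P).filter fun p => r < p ∧ ¬ p ∣ n

lemma PS_primeSet (n r P : ℕ) : PrimeSet n r P (PS n r P) where
  prime _ hp := (Nat.mem_primesLE.1 (Finset.mem_filter.1 hp).1).2
  gt _ hp := (Finset.mem_filter.1 hp).2.1
  le _ hp := (Nat.mem_primesLE.1 (Finset.mem_filter.1 hp).1).1
  cop _ hp := ((Nat.mem_primesLE.1 (Finset.mem_filter.1 hp).1).2.coprime_iff_not_dvd).2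
    (Finset.mem_filter.1 hp).2.2

lemma PS_card {n : ℕ} (hn : n ≠ 0) (r P : ℕ) :
    ((Nat.primesLE P).card : ℝ) ≤ (PS n r P).card + r + 2 * Real.log n := by
  have h1 : Nat.primesLE P ⊆ PS n r P ∪ (Finset.Icc 1 r ∪ n.primeFactors) := by
    intro p hp
    have hp' := Nat.mem_primesLE.1 hp
    by_cases h : r < p ∧ ¬ p ∣ n
    · exact Finset.mem_union_left _ (Finset.mem_filter.2 ⟨hp, h⟩)
    · apply Finset.mem_union_right
      rw [not_and_or, not_not, not_lt] at h
      rcases h with h | h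
      · exact Finset.mem_union_left _ (Finset.mem_Icc.2 ⟨hp'.2.one_le, h⟩)
      · exact Finset.mem_union_right _ (Nat.mem_primeFactors.2 ⟨hp'.2, h, hn⟩)
  have h2 : (Nat.primesLE P).card ≤ (PS n r P).card + (r + n.primeFactors.card) := by
    refine (Finset.card_le_card h1).trans ((Finset.card_union_le _ _).trans ?_)
    refine Nat.add_le_add_left ((Finset.card_union_le _ _).trans ?_) _
    rw [Nat.card_Icc]
    omega
  have h3 : ((Nat.primesLE P).card : ℝ) ≤ (PS n r P).card + (r + n.primeFactors.card) := by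
    exact_mod_cast h2
  have h4 := card_primeFactors_le hn
  linarith

/-- many primes up to `n^a` prime to `n` -/
lemma PS_lower (r : ℕ) {a e : ℝ} (ha1 : a ≤ 1) (he0 : 0 < e) (hea : e < a) :
    ∀ᶠ n : ℕ in atTop, (n:ℝ) ^ e ≤ ((PS n r ⌊(n:ℝ) ^ a⌋₊).card : ℝ) := by
  set γ : ℝ := (a - e) / 4 with hγ
  have hγ0 : 0 < γ := by
    rw [hγ]
    linarith
  have ha0 : 0 < a := by linarith
  filter_upwards [eventually_ge_atTop 2, ev_log hγ0, ev_log he0, ev_const r he0, ev_const 4 ha0,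
    ev_const 100 (show 0 < a - e - γ by linarith), ev_const 2 hγ0] with n hn hl1 hl2 hr h4 h100 hg2
  have hnr : (2:ℝ) ≤ n := by exact_mod_cast hn
  have hn0 : (0:ℝ) < n := by linarith
  have hn1 : (1:ℝ) ≤ n := by linarith
  set x : ℝ := (n:ℝ) with hx
  set P : ℕ := ⌊x ^ a⌋₊ with hP
  have hxa : 0 ≤ x ^ a := by positivity
  have hP1 : x ^ a < (P:ℝ) + 1 := Nat.lt_floor_add_one _
  have hP2 : (P:ℝ) ≤ x ^ a := Nat.floor_le hxa
  have hP3 : (3:ℝ) < P := by linarith
  have hxa1 : x ^ a ≤ x := by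
    calc x ^ a ≤ x ^ (1:ℝ) := Real.rpow_le_rpow_of_exponent_le hn1 ha1
      _ = x := Real.rpow_one x
  have hlogP0 : 0 < Real.log P := Real.log_pos (by linarith)
  have hlogP : Real.log P ≤ Real.log x := Real.log_le_log (by linarith) (hP2.trans hxa1)
  have hlogP1 : Real.log ((P:ℝ) + 1) ≤ 2 * Real.log x := by
    have h1 : (P:ℝ) + 1 ≤ x ^ 2 := by nlinarith
    have h2 := Real.log_le_log (by linarith) h1
    rw [Real.log_pow] at h2
    push_cast at h2
    exact h2
  have hlogx0 : 0 < Real.log x := Real.log_pos (by linarith)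
  -- Chebyshev
  have hpi := Chebyshev.pi_ge P
  have hcard : ((Nat.primesLE P).card : ℝ) = Nat.primeCounting P := by
    rw [Nat.primesLE_card_eq_primeCounting]
  rw [div_le_iff₀ hlogP0, ← hcard] at hpi
  have h5 := PS_card (by omega : n ≠ 0) r P
  set R : ℝ := ((PS n r P).card : ℝ) with hR
  have hR0 : 0 ≤ R := Nat.cast_nonneg _
  have hlog2 : (1/2 : ℝ) ≤ Real.log 2 := by
    have := Real.log_two_gt_d9
    linarith
  have h6 : (P:ℝ) * (1/2) - 2 * Real.log x ≤ (R + r + 2 * Real.log x) * Real.log x := by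
    calc (P:ℝ) * (1/2) - 2 * Real.log x ≤ P * Real.log 2 - Real.log ((P:ℝ) + 1) := by
          have : (P:ℝ) * (1/2) ≤ P * Real.log 2 := by gcongr
          linarith
      _ ≤ ((Nat.primesLE P).card : ℝ) * Real.log P := hpi
      _ ≤ (R + r + 2 * Real.log x) * Real.log x := by
          have h7 : 0 ≤ R + r + 2 * Real.log x := by positivity
          calc ((Nat.primesLE P).card : ℝ) * Real.log P ≤ (R + r + 2 * Real.log x) * Real.log P := by gcongr
            _ ≤ (R + r + 2 * Real.log x) * Real.log x := by gcongr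
  -- conclude by contradiction
  by_contra hcon
  push Not at hcon
  have hxe : 0 < x ^ e := by positivity
  have hxγ : 0 < x ^ γ := by positivity
  have h7 : (R + r + 2 * Real.log x) * Real.log x ≤ (4 * x ^ e) * x ^ γ := by
    have h8 : R + r + 2 * Real.log x ≤ 4 * x ^ e := by linarith
    gcongr
  have h8 : x ^ a = x ^ (a - e - γ) * (x ^ e * x ^ γ) := by
    rw [← Real.rpow_add hn0, ← Real.rpow_add hn0]
    congr 1
    ring
  have h9 : 100 * (x ^ e * x ^ γ) ≤ x ^ a := by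
    rw [h8]
    gcongr
  have h10 : Real.log x ≤ x ^ e * x ^ γ := by
    calc Real.log x ≤ x ^ e := hl2
      _ = x ^ e * 1 := by ring
      _ ≤ x ^ e * x ^ γ := by
          gcongr
          linarith
  have h11 : 0 < x ^ e * x ^ γ := by positivity
  have h12 : (P:ℝ) * (1/2) ≥ (x ^ a - 1) / 2 := by linarith
  nlinarith

end Pool.Agent.Helper76.MH
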